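import Pool.Agent.H57.TStar

set_option autoImplicit false

namespace Pool.Agent.Results.MP_b2422a_gt.Independent

open Cardinal Pool.Agent.H57.TStar

theorem result :
    ((𝔠 : Cardinal.{0}) = ℵ₁ → ¬ TStarGamma (ℕ → Bool)) ∧
    (ℵ₁ < covMeager → NoOmegaTwoChain → TStarGamma (ℕ → Bool) ∧
      ∀ (X : Type) [TopologicalSpace X] [CompactSpace X], TStarGamma X) :=
  ⟨neg, fun hc h2 => ⟨pos hc h2 _, fun X _ _ => pos hc h2 X⟩⟩

end Pool.Agent.Results.MP_b2422a_gt.Independent
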